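import Mathlib

namespace Pool.Agent.X51.Cov

/-- the `i`-th bit of the corner `b` -/
def bit (b i : ℕ) : Bool := b.testBit i

/-- the table of apexes, two binary digits per entry -/
def T : ℕ := 713104085379988251879612671538882222188405866434048407930866737150815963703730217183537995812181

/-- the `i`-th coordinate of the apex of the corner `b` -/
def U (b i : ℕ) : ℕ := (T >>> (2 * (5 * b + i))) % 4

/-- one coordinate of the covering test -/
def ok (b i m : ℕ) : Bool := if bit b i then decide (m ≤ U b i) else decide (U b i + 1 ≤ m)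

def coverTest : Bool :=
  (List.range 5).all fun m0 => (List.range 5).all fun m1 => (List.range 5).all fun m2 =>
  (List.range 5).all fun m3 => (List.range 5).all fun m4 => (List.range 32).any fun b =>
    ok b 0 m0 && ok b 1 m1 && ok b 2 m2 && ok b 3 m3 && ok b 4 m4

lemma coverTest_eq : coverTest = true := by decide +kernel

lemma cover_dec (m : Fin 5 → ℕ) (hm : ∀ i, m i < 5) :
    ∃ b < 32, ∀ i : Fin 5, ok b i (m i) = true := by
  have h := coverTest_eq
  simp only [coverTest, List.all_eq_true, List.any_eq_true, List.mem_range, Bool.and_eq_true] at h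
  obtain ⟨b, hb, ⟨⟨⟨h0, h1⟩, h2⟩, h3⟩, h4⟩ := h (m 0) (hm 0) (m 1) (hm 1) (m 2) (hm 2) (m 3) (hm 3)
    (m 4) (hm 4)
  refine ⟨b, hb, ?_⟩
  intro i
  fin_cases i
  · exact h0
  · exact h1
  · exact h2
  · exact h3
  · exact h4

lemma U_lt (b i : ℕ) : U b i < 4 := Nat.mod_lt _ (by norm_num)

lemma exists_diff : ∀ b < 32, ∀ b' < 32, b ≠ b' → ∃ l : Fin 5, bit b l ≠ bit b' l := by
  decide +kernel

lemma bits_surj : ∀ c0 c1 c2 c3 c4 : Bool, ∃ b < 32, bit b 0 = c0 ∧ bit b 1 = c1 ∧ bit b 2 = c2 ∧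
    bit b 3 = c3 ∧ bit b 4 = c4 := by
  decide +kernel

lemma bits_surj' (c : Fin 5 → Bool) : ∃ b < 32, ∀ i : Fin 5, bit b i = c i := by
  obtain ⟨b, hb, h0, h1, h2, h3, h4⟩ := bits_surj (c 0) (c 1) (c 2) (c 3) (c 4)
  refine ⟨b, hb, ?_⟩
  intro i
  fin_cases i
  · exact h0
  · exact h1
  · exact h2
  · exact h3
  · exact h4

/-- the critical corners -/
def crit : List ℕ := [0, 1, 2, 4, 8, 16]

lemma sep_dec : ∀ a ∈ crit, ∀ b < 32, a ≠ b → ∃ k : Fin 5,
    (bit a k = bit b k ∧ bit b k = true ∧ U b k + 1 ≤ U a k) ∨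
    (bit a k = bit b k ∧ bit b k = false ∧ U a k + 1 ≤ U b k) ∨
    (bit a k ≠ bit b k ∧ bit b k = true ∧ U b k ≤ U a k) ∨
    (bit a k ≠ bit b k ∧ bit b k = false ∧ U a k ≤ U b k) := by
  decide +kernel

lemma crit_lt : ∀ a ∈ crit, a < 32 := by decide +kernel

lemma crit_U : ∀ a ∈ crit, ∀ l : Fin 5,
    (bit a l = false → U a l ≤ 2) ∧ (bit a l = true → U a l = 3) := by
  decide +kernel

lemma U_zero : ∀ l : Fin 5, U 0 l = 1 := by decide +kernel

lemma bit_pow : ∀ i j : Fin 5, bit (2 ^ (i : ℕ)) j = decide (j = i) := by decide +kernel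

lemma pow_crit : ∀ i : Fin 5, 2 ^ (i : ℕ) ∈ crit := by decide +kernel

end Pool.Agent.X51.Cov
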