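import Mathlib
import Pool.Agent.X51.Cov.Table

open Finset

namespace Pool.Agent.X51.Cov

/-- the sign of corner `b` in coordinate `i` -/
def sg (b i : ℕ) : ℤ := if bit b i then -1 else 1

/-- the `i`-th coordinate of the corner -/
def co (b i : ℕ) : ℤ := if bit b i then 1 else 0

noncomputable def tm (b : ℕ) (l : Fin 5) (x : Fin 5 → ℝ) : ℝ :=
  (sg b l : ℝ) * (x l - 1000 * (co b l : ℝ) - (U b l : ℝ))

/-- the big body -/
def K0 : Set (Fin 5 → ℝ) :=
  {x | (∀ i, 0 ≤ x i ∧ x i ≤ 1003) ∧
    ∀ b < 32, ∀ k : Fin 5, 0 ≤ 100 * tm b k x + ∑ l, tm b l x}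

lemma tm_continuous (b : ℕ) (l : Fin 5) : Continuous (tm b l) := by
  unfold tm
  fun_prop

lemma K0_closed : IsClosed K0 := by
  have : K0 = (⋂ i : Fin 5, {x : Fin 5 → ℝ | 0 ≤ x i} ∩ {x | x i ≤ 1003}) ∩
      ⋂ b : ℕ, ⋂ _ : b < 32, ⋂ k : Fin 5, {x | 0 ≤ 100 * tm b k x + ∑ l, tm b l x} := by
    ext x
    simp [K0]
  rw [this]
  refine IsClosed.inter ?_ ?_
  · refine isClosed_iInter fun i => ?_
    exact (isClosed_le continuous_const (continuous_apply i)).inter
      (isClosed_le (continuous_apply i) continuous_const)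
  · refine isClosed_iInter fun b => isClosed_iInter fun _ => isClosed_iInter fun k => ?_
    refine isClosed_le continuous_const ?_
    have h1 := tm_continuous b k
    have h2 : Continuous fun x => ∑ l, tm b l x := continuous_finsetSum _ fun l _ => tm_continuous b l
    exact (continuous_const.mul h1).add h2

lemma K0_compact : IsCompact K0 := by
  refine IsCompact.of_isClosed_subset (isCompact_Icc (a := (fun _ => 0 : Fin 5 → ℝ))
    (b := fun _ => 1003)) K0_closed ?_
  intro x hx
  exact ⟨fun i => (hx.1 i).1, fun i => (hx.1 i).2⟩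

lemma tm_combo (b : ℕ) (l : Fin 5) (x y : Fin 5 → ℝ) {α β : ℝ} (h : α + β = 1) :
    tm b l (α • x + β • y) = α * tm b l x + β * tm b l y := by
  unfold tm
  simp only [Pi.add_apply, Pi.smul_apply, smul_eq_mul]
  have : (1000 * (co b l : ℝ) + (U b l : ℝ)) =
    α * (1000 * (co b l : ℝ) + (U b l : ℝ)) + β * (1000 * (co b l : ℝ) + (U b l : ℝ)) := by
    rw [← add_mul, h, one_mul]
  linear_combination (-(sg b l : ℝ)) * this

lemma K0_convex : Convex ℝ K0 := by
  intro x hx y hy α β hα hβ h
  refine ⟨?_, ?_⟩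
  · intro i
    have h1 := hx.1 i
    have h2 := hy.1 i
    simp only [Pi.add_apply, Pi.smul_apply, smul_eq_mul]
    constructor
    · have := mul_nonneg hα h1.1
      have := mul_nonneg hβ h2.1
      linarith
    · have a1 := mul_le_mul_of_nonneg_left h1.2 hα
      have a2 := mul_le_mul_of_nonneg_left h2.2 hβ
      have : α * 1003 + β * 1003 = 1003 := by rw [← add_mul, h, one_mul]
      linarith
  · intro b hb k
    have h1 := hx.2 b hb k
    have h2 := hy.2 b hb k
    simp only [tm_combo b _ x y h, Finset.sum_add_distrib, ← Finset.mul_sum]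
    have a1 := mul_nonneg hα h1
    have a2 := mul_nonneg hβ h2
    linarith

/-- cell index -/
noncomputable def mi (y : ℝ) : ℕ :=
  if y < 0 then 0 else if y < 1 then 1 else if y < 2 then 2 else if y < 3 then 3 else 4

lemma mi_lt (y : ℝ) : mi y < 5 := by
  unfold mi; split_ifs <;> norm_num

lemma mi_le {y : ℝ} {u : ℕ} (hu : u < 4) (h : mi y ≤ u) : y ≤ u := by
  unfold mi at h
  split_ifs at h with h0 h1 h2 h3
  · have : (0 : ℝ) ≤ u := Nat.cast_nonneg u
    linarith
  · have : (1 : ℝ) ≤ u := by exact_mod_cast h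
    linarith
  · have : (2 : ℝ) ≤ u := by exact_mod_cast h
    linarith
  · have : (3 : ℝ) ≤ u := by exact_mod_cast h
    linarith
  · omega

lemma le_mi {y : ℝ} {u : ℕ} (h : u + 1 ≤ mi y) : (u : ℝ) ≤ y := by
  unfold mi at h
  split_ifs at h with h0 h1 h2 h3
  · omega
  · have : (u : ℝ) ≤ 0 := by exact_mod_cast (by omega : u ≤ 0)
    linarith
  · have : (u : ℝ) ≤ 1 := by exact_mod_cast (by omega : u ≤ 1)
    linarith
  · have : (u : ℝ) ≤ 2 := by exact_mod_cast (by omega : u ≤ 2)
    linarith
  · have : (u : ℝ) ≤ 3 := by exact_mod_cast (by omega : u ≤ 3)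
    linarith

lemma exists_corner (y : Fin 5 → ℝ) : ∃ b < 32, ∀ i : Fin 5,
    (bit b i = true ∧ y i ≤ U b i) ∨ (bit b i = false ∧ (U b i : ℝ) ≤ y i) := by
  obtain ⟨b, hb, h⟩ := cover_dec (fun i => mi (y i)) (fun i => mi_lt _)
  refine ⟨b, hb, fun i => ?_⟩
  have hi := h i
  unfold ok at hi
  split_ifs at hi with hc
  · left
    exact ⟨hc, mi_le (U_lt b i) (by simpa using hi)⟩
  · right
    exact ⟨by simpa using hc, le_mi (by simpa using hi)⟩

lemma U_le_real (b i : ℕ) : (U b i : ℝ) ≤ 3 := by
  exact_mod_cast (by have := U_lt b i; omega : U b i ≤ 3)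

lemma mem_of_corner (y : Fin 5 → ℝ) (hy : ∀ i, -500 ≤ y i ∧ y i ≤ 500) {b : ℕ} (hb : b < 32)
    (h : ∀ i : Fin 5, (bit b i = true ∧ y i ≤ U b i) ∨ (bit b i = false ∧ (U b i : ℝ) ≤ y i)) :
    (fun i : Fin 5 => y i + 1000 * (co b i : ℝ)) ∈ K0 := by
  have hU0 : ∀ i : ℕ, (0 : ℝ) ≤ (U b i : ℝ) := fun i => Nat.cast_nonneg _
  refine ⟨?_, ?_⟩
  · intro i
    have h1 := hy i
    have h2 := U_le_real b i
    have h3 := hU0 i
    rcases h i with ⟨hc, hh⟩ | ⟨hc, hh⟩
    · simp only [co, hc, if_true]
      push_cast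
      constructor <;> linarith
    · simp only [co, hc]
      push_cast
      constructor
      · simp; linarith
      · simp; linarith
  · intro b' hb' k
    have hlow : ∀ l : Fin 5, -3 ≤ tm b' l (fun i : Fin 5 => y i + 1000 * (co b i : ℝ)) := by
      intro l
      have h1 := hy l
      have h2 := U_le_real b l
      have h3 := hU0 l
      have h4 := U_le_real b' l
      have h5 : (0 : ℝ) ≤ (U b' l : ℝ) := Nat.cast_nonneg _
      rcases h l with ⟨hc, hh⟩ | ⟨hc, hh⟩ <;> rcases hbb : bit b' l with _ | _ <;>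
        simp only [tm, co, sg, hc, hbb] <;> push_cast <;> simp <;> linarith
    by_cases hbb : b = b'
    · subst hbb
      have hpos : ∀ l : Fin 5, 0 ≤ tm b l (fun i : Fin 5 => y i + 1000 * (co b i : ℝ)) := by
        intro l
        rcases h l with ⟨hc, hh⟩ | ⟨hc, hh⟩ <;>
          simp only [tm, co, sg, hc] <;> push_cast <;> simp <;> linarith
      have h1 := hpos k
      have h2 : 0 ≤ ∑ l, tm b l (fun i : Fin 5 => y i + 1000 * (co b i : ℝ)) :=
        Finset.sum_nonneg fun l _ => hpos l
      linarith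
    · obtain ⟨l0, hl0⟩ := exists_diff b hb b' hb' hbb
      have hbig : 497 ≤ tm b' l0 (fun i : Fin 5 => y i + 1000 * (co b i : ℝ)) := by
        have h1 := hy l0
        have h2 := U_le_real b l0
        have h3 := hU0 l0
        have h4 := U_le_real b' l0
        have h5 : (0 : ℝ) ≤ (U b' l0 : ℝ) := Nat.cast_nonneg _
        rcases h l0 with ⟨hc, hh⟩ | ⟨hc, hh⟩
        · have hbb : bit b' l0 = false := by
            rw [hc] at hl0
            rcases hx : bit b' l0 with _ | _
            · rfl
            · exact absurd hx.symm hl0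
          simp only [tm, co, sg, hc, hbb]
          push_cast
          simp
          linarith
        · have hbb : bit b' l0 = true := by
            rw [hc] at hl0
            rcases hx : bit b' l0 with _ | _
            · exact absurd hx.symm hl0
            · rfl
          simp only [tm, co, sg, hc, hbb]
          push_cast
          simp
          linarith
      have hk := hlow k
      have hsum : 485 ≤ ∑ l, tm b' l (fun i : Fin 5 => y i + 1000 * (co b i : ℝ)) := by
        rw [← Finset.add_sum_erase _ _ (Finset.mem_univ l0)]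
        have : ∑ l ∈ univ.erase l0, (-3 : ℝ) ≤
            ∑ l ∈ univ.erase l0, tm b' l (fun i : Fin 5 => y i + 1000 * (co b i : ℝ)) :=
          Finset.sum_le_sum fun l _ => hlow l
        have e : ∑ l ∈ univ.erase l0, (-3 : ℝ) = -12 := by
          rw [Finset.sum_const, Finset.card_erase_of_mem (Finset.mem_univ l0), Finset.card_univ,
            Fintype.card_fin]
          norm_num
        rw [e] at this
        linarith
      linarith

lemma K0_cover (y : Fin 5 → ℝ) : ∃ z : Fin 5 → ℤ, (fun i => y i + 1000 * (z i : ℝ)) ∈ K0 := by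
  have h1 : ∀ i, -500 ≤ y i - 1000 * (round (y i / 1000) : ℝ) ∧
      y i - 1000 * (round (y i / 1000) : ℝ) ≤ 500 := by
    intro i
    have h := abs_sub_round (y i / 1000)
    rw [abs_le] at h
    obtain ⟨h2, h3⟩ := h
    have e : y i = 1000 * (y i / 1000) := by ring
    constructor <;> linarith
  obtain ⟨b, hb, h⟩ := exists_corner (fun i => y i - 1000 * (round (y i / 1000) : ℝ))
  have := mem_of_corner _ h1 hb h
  refine ⟨fun i => co b i - round (y i / 1000), ?_⟩
  have e : (fun i : Fin 5 => y i + 1000 * (((co b i - round (y i / 1000) : ℤ)) : ℝ)) =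
      (fun i : Fin 5 => y i - 1000 * (round (y i / 1000) : ℝ) + 1000 * (co b i : ℝ)) := by
    funext i
    push_cast
    ring
  rw [e]
  exact this

/-- the critical points -/
noncomputable def P (a : ℕ) : Fin 5 → ℝ := fun i => 1000 * (co a i : ℝ) + U a i + (sg a i : ℝ) / 4

lemma uniq {a : ℕ} (ha : a ∈ crit) (z : Fin 5 → ℤ) (h : (fun i => P a i + 1000 * (z i : ℝ)) ∈ K0) :
    z = 0 := by
  have hUa : ∀ i : ℕ, (0 : ℝ) ≤ (U a i : ℝ) := fun i => Nat.cast_nonneg _
  have hsg : ∀ i : ℕ, -1 / 4 ≤ (sg a i : ℝ) / 4 ∧ (sg a i : ℝ) / 4 ≤ 1 / 4 := by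
    intro i
    rcases hc : bit a i with _ | _ <;> simp only [sg, hc] <;> push_cast <;> norm_num
  have hw : ∀ i : Fin 5, co a i + z i = 0 ∨ co a i + z i = 1 := by
    intro i
    have h1 := h.1 i
    have h2 := U_le_real a i
    have h3 := hUa i
    have h4 := hsg i
    simp only [P] at h1
    have e : 1000 * (co a i : ℝ) + U a i + (sg a i : ℝ) / 4 + 1000 * (z i : ℝ) =
      1000 * (((co a i + z i : ℤ)) : ℝ) + U a i + (sg a i : ℝ) / 4 := by push_cast; ring
    rw [e] at h1
    have h5 : (-1 : ℝ) < ((co a i + z i : ℤ) : ℝ) := by linarith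
    have h6 : ((co a i + z i : ℤ) : ℝ) < 2 := by linarith
    have h7 : (-1 : ℤ) < co a i + z i := by exact_mod_cast h5
    have h8 : co a i + z i < 2 := by exact_mod_cast h6
    omega
  obtain ⟨b, hb, hbit⟩ := bits_surj' (fun i => decide (co a i + z i = 1))
  have hco : ∀ i : Fin 5, co b i = co a i + z i := by
    intro i
    have e : co b i = if bit b i = true then 1 else 0 := rfl
    rw [e, hbit i]
    rcases hw i with h0 | h0
    · simp [h0]
    · simp [h0]
  by_cases hab : a = b
  · funext i
    have := hco i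
    rw [← hab] at this
    simp only [Pi.zero_apply]
    omega
  · exfalso
    obtain ⟨k, hk⟩ := sep_dec a ha b hb hab
    have h1 := h.2 b hb k
    have htm : ∀ l : Fin 5, tm b l (fun i => P a i + 1000 * (z i : ℝ)) =
        (sg b l : ℝ) * ((U a l : ℝ) + (sg a l : ℝ) / 4 - U b l) := by
      intro l
      simp only [tm, P]
      have : (co b l : ℝ) = (co a l : ℝ) + (z l : ℝ) := by
        rw [hco l]; push_cast; ring
      rw [this]; ring
    have hup : ∀ l : Fin 5, tm b l (fun i => P a i + 1000 * (z i : ℝ)) ≤ 13 / 4 := by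
      intro l
      rw [htm l]
      have h2 := U_le_real a l
      have h3 := hUa l
      have h4 := hsg l
      have h5 := U_le_real b l
      have h6 : (0 : ℝ) ≤ (U b l : ℝ) := Nat.cast_nonneg _
      rcases hc : bit b l with _ | _
      · have e : (sg b l : ℝ) = 1 := by simp [sg, hc]
        rw [e]; linarith
      · have e : (sg b l : ℝ) = -1 := by simp [sg, hc]
        rw [e]; linarith
    have hk2 : tm b k (fun i => P a i + 1000 * (z i : ℝ)) ≤ -1 / 4 := by
      rw [htm k]
      rcases hk with ⟨e1, e2, e3⟩ | ⟨e1, e2, e3⟩ | ⟨e1, e2, e3⟩ | ⟨e1, e2, e3⟩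
      · have f1 : (sg b k : ℝ) = -1 := by simp [sg, e2]
        have f2 : (sg a k : ℝ) = -1 := by simp [sg, e1, e2]
        have f3 : (U b k : ℝ) + 1 ≤ U a k := by exact_mod_cast e3
        rw [f1, f2]; linarith
      · have f1 : (sg b k : ℝ) = 1 := by simp [sg, e2]
        have f2 : (sg a k : ℝ) = 1 := by simp [sg, e1, e2]
        have f3 : (U a k : ℝ) + 1 ≤ U b k := by exact_mod_cast e3
        rw [f1, f2]; linarith
      · have f1 : (sg b k : ℝ) = -1 := by simp [sg, e2]
        have g : bit a k = false := by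
          rw [e2] at e1
          rcases hx : bit a k with _ | _
          · rfl
          · exact absurd hx e1
        have f2 : (sg a k : ℝ) = 1 := by simp [sg, g]
        have f3 : (U b k : ℝ) ≤ U a k := by exact_mod_cast e3
        rw [f1, f2]; linarith
      · have f1 : (sg b k : ℝ) = 1 := by simp [sg, e2]
        have g : bit a k = true := by
          rw [e2] at e1
          rcases hx : bit a k with _ | _
          · exact absurd hx e1
          · rfl
        have f2 : (sg a k : ℝ) = -1 := by simp [sg, g]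
        have f3 : (U a k : ℝ) ≤ U b k := by exact_mod_cast e3
        rw [f1, f2]; linarith
    have hsum : ∑ l, tm b l (fun i => P a i + 1000 * (z i : ℝ)) ≤ ∑ _l : Fin 5, (13 / 4 : ℝ) :=
      Finset.sum_le_sum fun l _ => hup l
    rw [Finset.sum_const, Finset.card_univ, Fintype.card_fin] at hsum
    norm_num at hsum
    linarith

lemma uniq_cube (x : Fin 5 → ℝ) (hx : ∀ i, 4 ≤ x i ∧ x i ≤ 999) (z : Fin 5 → ℤ)
    (h : (fun i => x i + 1000 * (z i : ℝ)) ∈ K0) : z = 0 := by
  funext i
  have h1 := h.1 i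
  have h2 := hx i
  simp only at h1
  have h5 : (-1 : ℝ) < (z i : ℝ) := by linarith
  have h6 : (z i : ℝ) < 1 := by linarith
  have h7 : (-1 : ℤ) < z i := by exact_mod_cast h5
  have h8 : z i < 1 := by exact_mod_cast h6
  simp only [Pi.zero_apply]
  omega

end Pool.Agent.X51.Cov
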